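import Pool.Agent.H18.PB.Tb
import Pool.Agent.H1.BFL.JTB
import Pool.Agent.H4.BFL.JTE

/-!
# The deterministic laws of the thresholds of polynomial labels

A label on the ball of radius `2 ^ (-a')` is a label on the larger ball of radius `2 ^ (-a)` with
a loss of `K (a' - a) + C` rows. The threshold `thrT a w` is the largest precision of a label of
radius `a` and window `w` at the mesh points.
-/

set_option autoImplicit false

namespace Pool.PB

open Finset Real MvPolynomial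
open Pool.Agent.H49.Ent Pool.Agent.H32.Dense Pool.STK Pool.KA Pool.KSAT Pool.K2S
open Pool.Agent.H36.KBX (bx mem_bx coef_bound eval_bound support_bx)
open Pool.Agent.H1.BFL (scl coeff_scl totalDegree_scl eval_scl)
open Pool.BFL (sh eval_sh degree_sh)

/-- Growth of a polynomial of degree at most `K` from a cube to a larger cube. -/
theorem grow (n K : ℕ) : ∃ C : ℝ, 1 ≤ C ∧ ∀ (P : MvPolynomial (Fin n) ℝ) (M r ρ : ℝ)
    (y : Fin n → ℝ), P.totalDegree ≤ K → 0 < r → 1 ≤ ρ →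
    (∀ b : Fin n → ℝ, (∀ j, |b j - y j| ≤ r) → |eval b P| ≤ M) →
    ∀ b : Fin n → ℝ, (∀ j, |b j - y j| ≤ ρ * r) → |eval b P| ≤ C * ρ ^ K * M := by
  obtain ⟨C, hC0, hC⟩ := coef_bound n K
  refine ⟨(bx n K).card * C + 1, by
    have : (0 : ℝ) ≤ (bx n K).card * C := by positivity
    linarith, ?_⟩
  intro P M r ρ y hP hr hρ hM b hb
  have hρ0 : 0 < ρ := lt_of_lt_of_le one_pos hρ
  have hM0 : 0 ≤ M := (abs_nonneg _).trans (hM y fun j => by
    rw [sub_self, abs_zero]; exact hr.le)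
  set Q := scl r (sh y P) with hQ
  have hQd : Q.totalDegree ≤ K := (totalDegree_scl r _).trans (degree_sh y P hP)
  have hQe : ∀ z : Fin n → ℝ, eval z Q = eval (fun i => r * z i + y i) P := by
    intro z
    rw [hQ, eval_scl, eval_sh]
  have h1 : ∀ α, |coeff α Q| ≤ C * M := hC Q M hQd fun z hz => by
    rw [hQe]
    refine hM _ fun j => ?_
    rw [add_sub_cancel_right, abs_mul, abs_of_pos hr]
    calc r * |z j| ≤ r * 1 := mul_le_mul_of_nonneg_left (hz j) hr.le
      _ = r := mul_one r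
  -- the scaled polynomial
  have hSd : (scl ρ Q).totalDegree ≤ K := (totalDegree_scl ρ Q).trans hQd
  have h2 : ∀ α, |coeff α (scl ρ Q)| ≤ C * M * ρ ^ K := by
    intro α
    rw [coeff_scl, abs_mul]
    by_cases hα : coeff α Q = 0
    · rw [hα, abs_zero, mul_zero]; positivity
    · have h3 : α.degree ≤ K := by
        have := (le_totalDegree (mem_support_iff.2 hα)).trans hQd
        exact this
      rw [abs_of_pos (pow_pos hρ0 _), mul_comm]
      exact mul_le_mul (h1 α) (pow_le_pow_right₀ hρ h3) (by positivity) (by positivity)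
  have h4 := eval_bound (scl ρ Q) hSd (C * M * ρ ^ K) 1 le_rfl h2
    (fun i => (b i - y i) / (ρ * r)) (fun i => by
      rw [abs_div, abs_of_pos (mul_pos hρ0 hr)]
      exact (div_le_one (mul_pos hρ0 hr)).2 (hb i))
  rw [eval_scl, hQe] at h4
  have h5 : (fun i => r * (ρ * ((b i - y i) / (ρ * r))) + y i) = b := by
    funext i
    field_simp
    ring
  rw [h5] at h4
  rw [one_pow, mul_one] at h4
  refine h4.trans ?_
  have h6 : 0 ≤ ρ ^ K * M := by positivity
  calc ((bx n K).card : ℝ) * (C * M * ρ ^ K) = ((bx n K).card * C) * (ρ ^ K * M) := by ring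
    _ ≤ ((bx n K).card * C + 1) * (ρ ^ K * M) := by
      refine mul_le_mul_of_nonneg_right ?_ h6
      linarith
    _ = _ := by ring

variable {m J : ℕ}

/-- **Growth of the radius.** -/
theorem Tb.grow (m K : ℕ) : ∃ C : ℕ, ∀ (J : ℕ) (F : Fam m J) (i₁ : Fin m) (r a a' w P P' : ℕ)
    (A : F.Ω → Prop), a ≤ a' → P + K * (a' - a) + C ≤ P' → Tb F i₁ r K a' w P' A →
    Tb F i₁ r K a w P A := by
  obtain ⟨C₀, hC₀, hgrow⟩ := Pool.PB.grow m K
  obtain ⟨C, hC⟩ := pow_unbounded_of_one_lt C₀ (one_lt_two)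
  refine ⟨C, ?_⟩
  rintro J F i₁ r a a' w P P' A ha hP ⟨G, H, h1, h2, h3⟩
  refine ⟨G, H, h1, h2, fun ω hω => ?_⟩
  obtain ⟨h4, h5, h6⟩ := h3 ω hω
  refine ⟨h4.trans (inv_mono (by omega)), h5, fun b hb => ?_⟩
  have hd : (G (ptr F r ω) - H (slam F w ω)).totalDegree ≤ K :=
    (totalDegree_sub _ _).trans (max_le (h1 _) (h2 _))
  have h7 := hgrow (G (ptr F r ω) - H (slam F w ω)) (1 / 2 ^ P') (1 / 2 ^ a') (2 ^ (a' - a))
    (bp F i₁ ω) hd (by positivity) (one_le_pow₀ one_le_two) (fun b hb => by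
      rw [map_sub]
      exact h6 b hb) b (fun j => (hb j).trans (le_of_eq ?_))
  · rw [map_sub] at h7
    refine h7.trans ?_
    have e1 : (2 : ℝ) ^ P' = 2 ^ (P' - (P + K * (a' - a) + C)) *
        (2 ^ P * 2 ^ (K * (a' - a)) * 2 ^ C) := by
      rw [← pow_add, ← pow_add, ← pow_add]
      congr 1
      omega
    have e2 : (1 : ℝ) ≤ 2 ^ (P' - (P + K * (a' - a) + C)) := one_le_pow₀ one_le_two
    have e3 : ((2 : ℝ) ^ (a' - a)) ^ K = 2 ^ (K * (a' - a)) := by
      rw [← pow_mul, mul_comm]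
    have hP0 : (0 : ℝ) < 2 ^ P := by positivity
    have hX0 : (0 : ℝ) < 2 ^ (K * (a' - a)) := by positivity
    have hC1 : (0 : ℝ) < 2 ^ C := by positivity
    rw [e3, mul_one_div, div_le_div_iff₀ (by positivity) hP0, one_mul, e1]
    have e4 : C₀ * 2 ^ (K * (a' - a)) * 2 ^ P ≤ 2 ^ P * 2 ^ (K * (a' - a)) * 2 ^ C := by
      calc C₀ * 2 ^ (K * (a' - a)) * 2 ^ P = (2 ^ P * 2 ^ (K * (a' - a))) * C₀ := by ring
        _ ≤ (2 ^ P * 2 ^ (K * (a' - a))) * 2 ^ C :=
          mul_le_mul_of_nonneg_left hC.le (by positivity)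
        _ = _ := by ring
    refine e4.trans ?_
    exact le_mul_of_one_le_left (by positivity) e2
  · have : (2 : ℝ) ^ a' = 2 ^ (a' - a) * 2 ^ a := by
      rw [← pow_add]; congr 1; omega
    rw [this]
    field_simp

/-! ### the thresholds -/

open Classical in
/-- The threshold: the largest precision of the labels with radius `a` and window `w`, in units
of the mesh `u = J / N`. -/
noncomputable def thrT (F : Fam m J) (i₁ : Fin m) (N ρ K : ℕ) (A : F.Ω → Prop) (a w : ℕ) : ℕ :=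
  Nat.findGreatest
    (fun p => Tb F i₁ (ρ * (J / N)) K (a * (J / N)) (w * (J / N)) (p * (J / N)) A) ρ

section

variable {F : Fam m J} {i₁ : Fin m} {N ρ K : ℕ} {A : F.Ω → Prop}

theorem thrT_le (a w : ℕ) : thrT F i₁ N ρ K A a w ≤ ρ := by
  classical
  exact Nat.findGreatest_le _

/-- The label at the threshold. -/
theorem thrT_spec {a w : ℕ} (h : 0 < thrT F i₁ N ρ K A a w) :
    Tb F i₁ (ρ * (J / N)) K (a * (J / N)) (w * (J / N)) (thrT F i₁ N ρ K A a w * (J / N)) A := by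
  classical
  exact Nat.findGreatest_of_ne_zero (n := ρ)
    (P := fun p => Tb F i₁ (ρ * (J / N)) K (a * (J / N)) (w * (J / N)) (p * (J / N)) A) rfl h.ne'

/-- A label bounds the threshold from below. -/
theorem le_thrT {a w p : ℕ} (hp : p ≤ ρ)
    (h : Tb F i₁ (ρ * (J / N)) K (a * (J / N)) (w * (J / N)) (p * (J / N)) A) :
    p ≤ thrT F i₁ N ρ K A a w := by
  classical
  exact Nat.le_findGreatest hp h

/-- Every precision up to a positive threshold is attained. -/
theorem thrT_lab {a w p : ℕ} (hw : w ≤ N) (hp : p ≤ thrT F i₁ N ρ K A a w)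
    (h0 : 0 < thrT F i₁ N ρ K A a w) :
    Tb F i₁ (ρ * (J / N)) K (a * (J / N)) (w * (J / N)) (p * (J / N)) A :=
  Tb.mono le_rfl le_rfl le_rfl le_rfl
    ((Nat.mul_le_mul_right _ hw).trans (Nat.mul_div_le J N)) (Nat.mul_le_mul_right _ hp)
    (thrT_spec h0)

/-- No label beyond the threshold. -/
theorem thrT_not {a w p : ℕ} (hp : thrT F i₁ N ρ K A a w < p) (hpρ : p ≤ ρ) :
    ¬ Tb F i₁ (ρ * (J / N)) K (a * (J / N)) (w * (J / N)) (p * (J / N)) A :=
  fun h => absurd (le_thrT hpρ h) (by omega)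

/-- Monotonicity in the radius and in the window. -/
theorem thrT_mono {a a' w w' : ℕ} (ha : a ≤ a') (hw : w ≤ w') (hw' : w' ≤ N) :
    thrT F i₁ N ρ K A a w ≤ thrT F i₁ N ρ K A a' w' := by
  rcases Nat.eq_zero_or_pos (thrT F i₁ N ρ K A a w) with h | h
  · omega
  · exact le_thrT (thrT_le a w) (Tb.mono le_rfl le_rfl (Nat.mul_le_mul_right _ ha)
      (Nat.mul_le_mul_right _ hw) ((Nat.mul_le_mul_right _ hw').trans (Nat.mul_div_le J N))
      le_rfl (thrT_spec h))

/-- Monotonicity in the event: smaller events have larger thresholds. -/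
theorem thrT_sub {B : F.Ω → Prop} (hB : ∀ ω, B ω → A ω) (a w : ℕ) :
    thrT F i₁ N ρ K A a w ≤ thrT F i₁ N ρ K B a w := by
  rcases Nat.eq_zero_or_pos (thrT F i₁ N ρ K A a w) with h | h
  · omega
  · exact le_thrT (thrT_le a w) (Tb.hered F i₁ _ _ _ _ _ A B hB (thrT_spec h))

/-- Monotonicity in the degree. -/
theorem thrT_deg {K' : ℕ} (hK : K ≤ K') {a w : ℕ} (hw : w ≤ N) :
    thrT F i₁ N ρ K A a w ≤ thrT F i₁ N ρ K' A a w := by
  rcases Nat.eq_zero_or_pos (thrT F i₁ N ρ K A a w) with h | h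
  · omega
  · exact le_thrT (thrT_le a w) (Tb.mono le_rfl hK le_rfl le_rfl
      ((Nat.mul_le_mul_right _ hw).trans (Nat.mul_div_le J N)) le_rfl (thrT_spec h))

/-- The trivial label bounds the threshold from below. -/
theorem thrT_trivial {a w : ℕ} (hN : 0 < N) (hJ : N ≤ J) (hw : w ≤ N) (hw0 : 1 ≤ w)
    (hwρ : w ≤ ρ) : w - 1 ≤ thrT F i₁ N ρ K A a w := by
  have hu : 1 ≤ J / N := Nat.div_pos hJ hN
  refine le_thrT (by omega) (Tb.trivial ?_ ?_
    ((Nat.mul_le_mul_right _ hw).trans (Nat.mul_div_le J N)))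
  · have : (w - 1 + 1) * (J / N) = w * (J / N) := by congr 1; omega
    rw [Nat.add_mul, Nat.one_mul] at this
    omega
  · have : (w - 1 + 1) * (J / N) ≤ ρ * (J / N) := Nat.mul_le_mul_right _ (by omega)
    rw [Nat.add_mul, Nat.one_mul] at this
    omega

end

/-- **The Lipschitz law** of the thresholds in the radius at a fixed window. -/
theorem thrT_lip (m K : ℕ) : ∃ C : ℕ, ∀ (J : ℕ) (F : Fam m J) (i₁ : Fin m) (N ρ : ℕ)
    (A : F.Ω → Prop) (a a' w : ℕ), C ≤ J / N → a ≤ a' →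
    thrT F i₁ N ρ K A a' w ≤ thrT F i₁ N ρ K A a w + K * (a' - a) + 1 := by
  obtain ⟨C, hC⟩ := Tb.grow m K
  refine ⟨C, ?_⟩
  intro J F i₁ N ρ A a a' w hu ha
  by_contra hcon
  rw [not_le] at hcon
  set p := thrT F i₁ N ρ K A a' w with hp
  have h0 : 0 < thrT F i₁ N ρ K A a' w := by rw [← hp]; omega
  have h1 := thrT_spec h0
  rw [← hp] at h1
  have h2 : Tb F i₁ (ρ * (J / N)) K (a * (J / N)) (w * (J / N))
      ((p - (K * (a' - a) + 1)) * (J / N)) A := by
    refine hC J F i₁ _ _ _ _ _ _ A (Nat.mul_le_mul_right _ ha) ?_ h1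
    have e0 : a' * (J / N) - a * (J / N) = (a' - a) * (J / N) := (Nat.sub_mul _ _ _).symm
    rw [e0, Nat.sub_mul, Nat.add_mul, Nat.one_mul, mul_assoc]
    have h3 : K * ((a' - a) * (J / N)) + (J / N) ≤ p * (J / N) := by
      have : (K * (a' - a) + 1) * (J / N) ≤ p * (J / N) := Nat.mul_le_mul_right _ (by omega)
      rw [Nat.add_mul, Nat.one_mul, mul_assoc] at this
      exact this
    omega
  have h3 := le_thrT (by have := thrT_le (F := F) (i₁ := i₁) (N := N) (ρ := ρ) (K := K) (A := A) a' w; omega) h2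
  omega

end Pool.PB
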